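import Pool.Agent.N77.CS.Fin

/-!
# The congruence subgroup property on stabilizers of free splittings

`Cong n S`: for every subgroup `V` of finite index of `Aut (F_n)` there is a characteristic subgroup `K` of
finite index of `F_n` such that all automorphisms in `S` which act trivially on `F_n / K` are in `V`.
`OutCong n S`: for every normal subgroup `V` of finite index of `Aut (F_n)` which contains the inner
automorphisms (that is, for every finite quotient of `Out (F_n)`) there is such a `K` for which the
automorphisms in `S` which act on `F_n / K` as an inner automorphism are in `V`. For `S` the set of all
automorphisms `OutCong n S` is the congruence subgroup property of `Out (F_n)`.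

(2) Let `F_{k+l} = A * B` with free factors `A` of rank `k ≥ 1` and `B` of rank `l ≥ 1`. If the congruence
subgroup property holds for `Out (F_k)` and for `Out (F_l)` (no condition on a free factor of rank `1`; for rank
`2` it is the theorem of Asada) then every finite quotient of `Out (F_{k+l})`, restricted to the stabilizer
of the free splitting `A * B` (the automorphisms which map `A` and `B` onto conjugates), factors through
`Out (F_{k+l} / K)` for some characteristic subgroup `K` of finite index. For example this holds without
any hypothesis for `F_4 = F_2 * F_2`.

(1) The same holds for all members of the family `Fam`: it contains the set of all automorphisms of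
`F_m` if `m = 1` or the property holds for `Out (F_m)`, and is closed under the operations `Prd` (the automorphisms
of `A * B` which up to an inner automorphism restrict to elements of `S` and `T` on the factors) and `step`
(the automorphisms of `F_n * ⟨t⟩` which restrict to an element of `S` on `F_n` and map `t` to `u t^{±1} v` with
`u`, `v` in `F_n`; the case of `step` is the theorem `FlagStabilizers` of the starting library).

Every stabilizer of a free splitting of `F_n` has a subgroup of finite index which stabilizes a free
splitting with one edge, `F_n = A * B` or `F_n = F_{n-1} * ⟨t⟩` (an HNN extension with trivial edge group). So if the
congruence subgroup property holds for all `Out (F_m)`, `m < n`, then it holds for all finite quotients of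
`Out (F_n)` on (a subgroup of finite index of) each stabilizer of a free splitting.

Outline of the proof. Let `K_A`, `K_B` be characteristic subgroups of finite index of `A`, `B`, with quotients
`P` and `Q`. The group `A * B` acts on the finite set `Q × P`: an element of `A` multiplies the second coordinate
of the points `(1, p)` and fixes the other points, an element of `B` multiplies the first coordinate. If the
free product of automorphisms `σ` of `A` and `τ` of `B` acts as the conjugation by `g` modulo the kernel of this
action, then `g` preserves `{1} × P`, and it follows that `τ` acts trivially on `Q`; with the roles exchanged,
`σ` acts trivially on `P`. So `σ` and `τ` are in given subgroups of finite index.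

The parts WR, ASM, NF and ONE were written by helper545, helper565, helper896 and helper747.
-/

set_option autoImplicit false

namespace Pool.Agent.Results.MP_181555_al.FreeSplittingStabilizers

open Pool.Agent.R387.TC Pool.Agent.N77.CS

theorem result :
    (∀ (n : ℕ) (S : Set (MulAut (F n))), Fam n S → Cong n S ∧ OutCong n S) ∧
    ∀ k l : ℕ, 1 ≤ k → 1 ≤ l → (2 ≤ k → OutCong k Set.univ) → (2 ≤ l → OutCong l Set.univ) →
      Cong (k + l) {φ | CjTo (iA k l).range φ ∧ CjTo (iB k l).range φ} ∧
      OutCong (k + l) {φ | CjTo (iA k l).range φ ∧ CjTo (iB k l).range φ} :=
  fin

end Pool.Agent.Results.MP_181555_al.FreeSplittingStabilizers
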