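import Mathlib
import Pool.Agent.N66.AF.All

set_option autoImplicit false

/-!
# Representations of `Aut(F_n)` and `Out(F_n)` of small dimension over arbitrary fields

Let `d < binom (⌊n/2⌋ - 5) 2`, let `K` be any field and `f : Aut(F_n) → GL_d(K)` a homomorphism.

(1) `f` is trivial on all automorphisms acting trivially on `F_n / γ_3(F_n)`. More precisely: let
`φ` be in `IA_n` (it acts trivially on the abelianization), and let `c_j(φ)` be the sum over `i` of
the coefficients of `X_j X_i` in the Magnus expansions of `φ(x_i)`. If all `c_j(φ)` vanish in `K`,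
then `f(φ) = 1`. So `f` factors on `IA_n` through the contraction
`IA_n → Hom(H, Λ² H) → H = ℤ^n` of the Johnson homomorphism, modulo the characteristic of `K`.

(2) If `K` has characteristic `p > 0`, then the image of `f` is finite and its kernel is a
congruence subgroup: for odd `p` it contains all automorphisms acting trivially on `F_n / C_p`, and,
if `f` kills the inner automorphisms, all automorphisms acting on `F_n / C_p` as inner
automorphisms, where `C_p` is the intersection of the kernels of all homomorphisms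
`F_n → GL_3(𝔽_p)`; for all `p` the same with `C_p ∩ C_3`.

(3) Let `f` kill the inner automorphisms (a representation of `Out(F_n)`), and suppose that
`n - 1 ≠ 0` in `K`. Then `f` kills `IA_n`, so it factors through `GL_n(ℤ)`; if `K` has odd
characteristic `p`, it kills all automorphisms acting trivially on `H_1(F_n; 𝔽_p)`, so it factors
through `GL_n(𝔽_p)`.

(4) If `f` has finite image, for any field `K`, then there is a prime `p` such that the kernel is a
congruence subgroup with respect to `C_p ∩ C_3`. So every finite quotient of `Aut(F_n)` or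
`Out(F_n)` that has a faithful representation of dimension less than `binom (⌊n/2⌋ - 5) 2` over
some field is a congruence quotient.

Proof (`Pool/Agent/N66/AF`). By the starting library the operators `N_ij = f(x_i ↦ x_i x_j) - 1`
satisfy `N_ij² = 0` and `N_ij N_kl = 0` for disjoint indices. We deduce `X_ij Y_kl = 0` for all left
and right transvections unless `j = k` or `i = l`, and that `D_j = N_ij - L_ij` does not depend on
`i`. Then `N_ij = P_ij - R_ij`, `D_j = U_j + W_j`, where `P`, `R` are matrix units, and the products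
are as in a direct sum of trivial representations, copies of `H` and `H*` and the extensions given by
the crossed homomorphism `c : Aut(F_n) → H`. So `f(φ)` is given by an explicit formula in the
matrix of `φ` and `c(φ)`.
-/

namespace Pool.Agent.Results.MP_181555_al.SmallDimension

open FreeGroup (of)

universe u

/-- `ψ` acts trivially on `F_n / C`. -/
def TrivialMod {n : ℕ} (C : Subgroup (FreeGroup (Fin n))) (ψ : MulAut (FreeGroup (Fin n))) :
    Prop :=
  ∀ x : FreeGroup (Fin n), ψ x * x⁻¹ ∈ C

/-- `ψ` acts on `F_n / C` as an inner automorphism. -/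
def InnerMod {n : ℕ} (C : Subgroup (FreeGroup (Fin n))) (ψ : MulAut (FreeGroup (Fin n))) : Prop :=
  ∃ g : FreeGroup (Fin n), ∀ x : FreeGroup (Fin n), ψ x * (g * x * g⁻¹)⁻¹ ∈ C

/-- the subgroup `N` of `Aut(F_n)` has finite index and contains the automorphisms acting trivially
on `F_n / C`; if it contains the inner automorphisms, then it contains the automorphisms acting as
inner automorphisms on `F_n / C`; and `C` is characteristic of finite index -/
def CongruenceFor {n : ℕ} (C : Subgroup (FreeGroup (Fin n)))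
    (N : Subgroup (MulAut (FreeGroup (Fin n)))) : Prop :=
  C.Characteristic ∧ C.FiniteIndex ∧ N.FiniteIndex ∧ (∀ ψ, TrivialMod C ψ → ψ ∈ N) ∧
    ((∀ g : FreeGroup (Fin n), MulAut.conj g ∈ N) → ∀ ψ, InnerMod C ψ → ψ ∈ N)

/-- the intersection of the kernels of all homomorphisms `F_n → GL_3(𝔽_p)` -/
def C (n p : ℕ) : Subgroup (FreeGroup (Fin n)) :=
  ⨅ f : FreeGroup (Fin n) →* Matrix.GeneralLinearGroup (Fin 3) (ZMod p), f.ker

/-- the homomorphism of `F_n` to `SL_3(ℤ)` with `x_i ↦ 1 + δ_ij E_12 + δ_ik E_23` -/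
def heis {n : ℕ} (j k : Fin n) : FreeGroup (Fin n) →* Matrix.SpecialLinearGroup (Fin 3) ℤ :=
  FreeGroup.lift fun i =>
    ⟨!![1, if i = j then 1 else 0, 0; 0, 1, if i = k then 1 else 0; 0, 0, 1], by
      simp [Matrix.det_fin_three]⟩

/-- the coefficient of `X_j X_k` in the Magnus expansion of `g`: the entry `(1, 3)` of
`heis j k g` -/
def magnus {n : ℕ} (j k : Fin n) (g : FreeGroup (Fin n)) : ℤ :=
  (heis j k g : Matrix (Fin 3) (Fin 3) ℤ) 0 2

/-- Let `d < binom (⌊n/2⌋ - 5) 2`, `K` a field and `f : Aut(F_n) → GL_d(K)` a homomorphism.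
(1) If `φ` acts trivially on the abelianization and the sums over `i` of the coefficients of
`X_j X_i` in `φ(x_i)` vanish in `K` for all `j`, then `f(φ) = 1`. In particular `f(φ) = 1` if `φ`
acts trivially on `F_n / γ_3(F_n)`.
(2) In characteristic `p > 0` the kernel of `f` has finite index and is a congruence subgroup with
respect to `C n p ⊓ C n 3`, and with respect to `C n p` if `p` is odd.
(3) If `f` kills the inner automorphisms and `n - 1 ≠ 0` in `K`, then `f` is trivial on `IA_n`; if
`K` has odd characteristic `p`, then `f` is trivial on the automorphisms acting trivially on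
`H_1(F_n; 𝔽_p)`.
(4) If `f` has finite image, then the kernel is a congruence subgroup with respect to
`C n p ⊓ C n 3` for some prime `p`. -/
theorem result (n d : ℕ) (hd : d < (n / 2 - 5).choose 2) (K : Type u) [Field K]
    (f : MulAut (FreeGroup (Fin n)) →* Matrix.GeneralLinearGroup (Fin d) K) :
    ((∀ φ : MulAut (FreeGroup (Fin n)), TrivialMod (commutator (FreeGroup (Fin n))) φ →
        (∀ j, ((∑ i, magnus j i (φ (of i)) : ℤ) : K) = 0) → f φ = 1) ∧
      ∀ φ : MulAut (FreeGroup (Fin n)),
        TrivialMod ((⊤ : Subgroup (FreeGroup (Fin n))).lowerCentralSeries 2) φ → f φ = 1) ∧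
    (∀ p : ℕ, p.Prime → CharP K p →
      CongruenceFor (C n p ⊓ C n 3) f.ker ∧ (p ≠ 2 → CongruenceFor (C n p) f.ker)) ∧
    ((∀ g : FreeGroup (Fin n), f (MulAut.conj g) = 1) → (n : K) - 1 ≠ 0 →
      (∀ φ, TrivialMod (commutator (FreeGroup (Fin n))) φ → f φ = 1) ∧
      ∀ p : ℕ, p.Prime → CharP K p → p ≠ 2 → ∀ φ : MulAut (FreeGroup (Fin n)),
        (∀ x, ∃ y, ∃ c ∈ commutator (FreeGroup (Fin n)), φ x * x⁻¹ = y ^ p * c) → f φ = 1) ∧
    (Finite f.range → ∃ p : ℕ, p.Prime ∧ CongruenceFor (C n p ⊓ C n 3) f.ker) := by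
  have L := Pool.Agent.N66.AF.lv.{u}
  have hC : ∀ p : ℕ, p.Prime → (C n p).Characteristic ∧ (C n p).FiniteIndex := fun p hp =>
    ⟨(L.CC n p hp).1, (L.CC n p hp).2.1⟩
  have hC3 : ∀ p : ℕ, p.Prime → (C n p ⊓ C n 3).Characteristic ∧ (C n p ⊓ C n 3).FiniteIndex := by
    intro p hp
    have := (hC p hp).2
    have := (hC 3 Nat.prime_three).2
    exact ⟨Pool.Agent.N66.AF.char_inf (hC p hp).1 (hC 3 Nat.prime_three).1, inferInstance⟩
  refine ⟨⟨fun φ h1 h2 => ?_, fun φ h => Pool.Agent.N66.AF.kill_gamma L hd f h⟩, ?_, ?_, ?_⟩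
  · obtain ⟨p, hp⟩ := CharP.exists K
    refine Pool.Agent.N66.AF.kill_IA L hd f h1 (p := p) (by simp) fun j => ?_
    exact (CharP.intCast_eq_zero_iff K p _).1 (h2 j)
  · intro p hp hK
    obtain ⟨h1, h2⟩ := Pool.Agent.N66.AF.char_p L hd f hp
    exact ⟨⟨(hC3 p hp).1, (hC3 p hp).2, h1⟩, fun hp2 => ⟨(hC p hp).1, (hC p hp).2, h2 hp2⟩⟩
  · intro hinn hn1
    refine ⟨fun φ h => (Pool.Agent.N66.AF.out_IA L hd f hinn hn1).1 h, ?_⟩
    intro p hp hK hp2 φ h
    exact (Pool.Agent.N66.AF.out_IA L hd f hinn hn1).2 p hp hK hp2 h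
  · intro hf
    obtain ⟨p, hp, h⟩ := Pool.Agent.N66.AF.fin_any L hd f hf
    exact ⟨p, hp, (hC3 p hp).1, (hC3 p hp).2, h⟩

end Pool.Agent.Results.MP_181555_al.SmallDimension
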